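import Pool.Agent.H7.LP.Targets2

/-!
# The induced space of a closed subgroup (row IND, MP_5607ba_lc)

`Z = T × X` with a Borel transversal `T` of the closed subgroup `H` of the Polish group `L`.
-/

set_option autoImplicit false

open Set Filter Topology

namespace Pool.Agent.H11.LP

open Pool.Agent.H7.LP Pool.Agent.H93.CP

section Alg

variable {L X : Type} [Group L] {H : Subgroup L} {σ : L → L}

/-- `σ` chooses a point in every left coset of `H` -/
structure Trv (H : Subgroup L) (σ : L → L) : Prop where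
  ex : ∀ g, ∃ m ∈ H, σ g = g * m
  inv : ∀ g, ∀ m ∈ H, σ (g * m) = σ g

theorem Trv.idem (hT : Trv H σ) (g : L) : σ (σ g) = σ g := by
  obtain ⟨m, hm, e⟩ := hT.ex g
  rw [e, hT.inv g m hm, e]

theorem Trv.mem (hT : Trv H σ) (g : L) : (σ g)⁻¹ * g ∈ H := by
  obtain ⟨m, hm, e⟩ := hT.ex g
  rw [e]
  have : (g * m)⁻¹ * g = m⁻¹ := by group
  rw [this]
  exact H.inv_mem hm

theorem Trv.mul (hT : Trv H σ) (g' g : L) : σ (g' * σ g) = σ (g' * g) := by
  obtain ⟨m, hm, e⟩ := hT.ex g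
  rw [e, ← mul_assoc, hT.inv _ m hm]

/-- the cocycle -/
def Trv.cc (hT : Trv H σ) (g : L) : H := ⟨(σ g)⁻¹ * g, hT.mem g⟩

/-- the induced action -/
@[implicit_reducible]
def Trv.act [MulAction H X] (hT : Trv H σ) : MulAction L ({t : L // σ t = t} × X) where
  smul g z := (⟨σ (g * z.1), hT.idem _⟩, hT.cc (g * z.1) • z.2)
  one_smul := by
    rintro ⟨⟨t, ht⟩, x⟩
    show (_, _) = _
    refine Prod.ext (Subtype.ext ?_) ?_
    · show σ (1 * t) = t
      rw [one_mul, ht]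
    · show hT.cc (1 * t) • x = x
      have e : hT.cc (1 * t) = 1 := by
        apply Subtype.ext
        show (σ (1 * t))⁻¹ * (1 * t) = 1
        rw [one_mul, ht, inv_mul_cancel]
      rw [e, one_smul]
  mul_smul := by
    rintro g' g ⟨⟨t, ht⟩, x⟩
    show (_, _) = (_, _)
    refine Prod.ext (Subtype.ext ?_) ?_
    · show σ (g' * g * t) = σ (g' * σ (g * t))
      rw [hT.mul, mul_assoc]
    · show hT.cc (g' * g * t) • x = hT.cc (g' * σ (g * t)) • hT.cc (g * t) • x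
      rw [← mul_smul]
      congr 1
      apply Subtype.ext
      show (σ (g' * g * t))⁻¹ * (g' * g * t) =
        (σ (g' * σ (g * t)))⁻¹ * (g' * σ (g * t)) * ((σ (g * t))⁻¹ * (g * t))
      rw [hT.mul, mul_assoc g' g t]
      group

variable [MulAction H X]

theorem Trv.smul_def (hT : Trv H σ) (g : L) (z : {t : L // σ t = t} × X) :
    hT.act.smul g z = (⟨σ (g * z.1), hT.idem _⟩, hT.cc (g * z.1) • z.2) := rfl

end Alg

theorem pf_IND (h1 : T_DIX) : T_IND := by
  intro L X _ _ _ _ _ _ _ _ H _ _ hH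
  obtain ⟨σ, hσ, ha, hb⟩ := h1 L H hH
  have hT : Trv H σ := ⟨ha, hb⟩
  have hTm : MeasurableSet {t : L | σ t = t} := measurableSet_eq_fun hσ measurable_id
  have hS : StandardBorelSpace {t : L // σ t = t} := hTm.standardBorel
  let A : MulAction L ({t : L // σ t = t} × X) := hT.act
  have hsm : ∀ (g : L) (z : {t : L // σ t = t} × X),
      g • z = (⟨σ (g * z.1), hT.idem _⟩, hT.cc (g * z.1) • z.2) := fun _ _ => rfl
  -- measurability
  have hM : MeasurableSMul₂ L ({t : L // σ t = t} × X) := by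
    refine ⟨?_⟩
    have hm : Measurable fun p : L × ({t : L // σ t = t} × X) => p.1 * (p.2.1 : L) :=
      measurable_fst.mul (measurable_subtype_coe.comp (measurable_fst.comp measurable_snd))
    have hs : Measurable fun p : L × ({t : L // σ t = t} × X) => σ (p.1 * (p.2.1 : L)) :=
      hσ.comp hm
    refine Measurable.prodMk ?_ ?_
    · exact Measurable.subtype_mk hs
    · have hc : Measurable fun p : L × ({t : L // σ t = t} × X) =>
          hT.cc (p.1 * (p.2.1 : L)) := by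
        refine Measurable.subtype_mk ?_
        exact hs.inv.mul hm
      exact hc.smul (measurable_snd.comp measurable_snd)
  -- the point of `H`
  set t₀ : {t : L // σ t = t} := ⟨σ 1, hT.idem 1⟩ with ht₀
  have k1 : ∀ z : {t : L // σ t = t} × X, ((t₀ : L) * (z.1 : L)⁻¹) • z = (t₀, z.2) := by
    intro z
    rw [hsm]
    have e : (t₀ : L) * (z.1 : L)⁻¹ * (z.1 : L) = t₀ := inv_mul_cancel_right _ _
    refine Prod.ext (Subtype.ext ?_) ?_
    · show σ ((t₀ : L) * (z.1 : L)⁻¹ * (z.1 : L)) = t₀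
      rw [e, t₀.2]
    · show hT.cc ((t₀ : L) * (z.1 : L)⁻¹ * (z.1 : L)) • z.2 = z.2
      have e2 : hT.cc ((t₀ : L) * (z.1 : L)⁻¹ * (z.1 : L)) = 1 := by
        apply Subtype.ext
        show (σ _)⁻¹ * _ = 1
        rw [e, t₀.2, inv_mul_cancel]
      rw [e2, one_smul]
  have k2 : ∀ (h : H) (x : X), ((t₀ : L) * h * (t₀ : L)⁻¹) • (t₀, x) = (t₀, h • x) := by
    intro h x
    rw [hsm]
    have e : (t₀ : L) * h * (t₀ : L)⁻¹ * (t₀ : L) = t₀ * h := inv_mul_cancel_right _ _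
    refine Prod.ext (Subtype.ext ?_) ?_
    · show σ ((t₀ : L) * h * (t₀ : L)⁻¹ * (t₀ : L)) = t₀
      rw [e, hT.inv _ _ h.2, t₀.2]
    · show hT.cc ((t₀ : L) * h * (t₀ : L)⁻¹ * (t₀ : L)) • x = h • x
      have e2 : hT.cc ((t₀ : L) * h * (t₀ : L)⁻¹ * (t₀ : L)) = h := by
        apply Subtype.ext
        show (σ _)⁻¹ * _ = _
        rw [e, hT.inv _ _ h.2, t₀.2, inv_mul_cancel_left]
      rw [e2]
  refine ⟨{t : L // σ t = t} × X, inferInstance, inferInstance, A, hM, ⟨?_, ?_⟩, ⟨?_, ?_⟩⟩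
  · rintro ⟨B, hB, hB'⟩
    refine ⟨Prod.snd '' B, hB.image _, fun x => ?_⟩
    obtain ⟨g, hg⟩ := hB' (t₀, x)
    rw [hsm] at hg
    exact ⟨_, _, hg, rfl⟩
  · rintro ⟨B, hB, hB'⟩
    refine ⟨(fun x => (t₀, x)) '' B, hB.image _, fun z => ?_⟩
    obtain ⟨h, hh⟩ := hB' z.2
    refine ⟨((t₀ : L) * h * (t₀ : L)⁻¹) * ((t₀ : L) * (z.1 : L)⁻¹), ?_⟩
    rw [mul_smul, k1, k2]
    exact ⟨_, hh, rfl⟩
  · rintro ⟨f, hf, hf'⟩
    refine ⟨fun u => (f u).2, measurable_snd.comp hf, fun u v huv h e => ?_⟩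
    refine hf' u v huv (((t₀ : L) * ((f v).1 : L)⁻¹)⁻¹ * (((t₀ : L) * h * (t₀ : L)⁻¹) *
      ((t₀ : L) * ((f u).1 : L)⁻¹))) ?_
    rw [mul_smul, mul_smul, k1, k2, e, ← k1 (f v), inv_smul_smul]
  · rintro ⟨f, hf, hf'⟩
    refine ⟨fun u => (t₀, f u), measurable_const.prodMk hf, fun u v huv g e => ?_⟩
    rw [hsm] at e
    exact hf' u v huv _ (congrArg Prod.snd e)

end Pool.Agent.H11.LP
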