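import Pool.Agent.H62.LP.T1
import Pool.Agent.H62.LP.T2

/-! Lower bound for the mixed moment (module LOW). -/

set_option autoImplicit false

open MeasureTheory ProbabilityTheory Filter Topology
open scoped ENNReal NNReal

namespace Pool.Agent.H11.LP

open Pool.Agent.H62.LP

open Classical in
theorem wt_QB (B : Set V3) (l : List V3) : ∀ a : V3,
    wt (QB B) a l = if ∀ x ∈ l, x ∈ B then wt Q a l else 0 := by
  induction l with
  | nil => intro a; simp
  | cons y l ih =>
    intro a
    rw [wt_cons, ih y, wt_cons]
    unfold QB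
    by_cases hy : y ∈ B
    · by_cases hl : ∀ x ∈ l, x ∈ B
      · have h : ∀ x ∈ y :: l, x ∈ B := by
          intro x hx
          rcases List.mem_cons.1 hx with rfl | hx
          · exact hy
          · exact hl x hx
        rw [if_pos hy, if_pos hl, if_pos h]
      · have h : ¬ ∀ x ∈ y :: l, x ∈ B := fun h => hl fun x hx => h x (List.mem_cons_of_mem _ hx)
        rw [if_neg hl, if_neg h, mul_zero]
    · have h : ¬ ∀ x ∈ y :: l, x ∈ B := fun h => hy (h y List.mem_cons_self)
      rw [if_neg hy, if_neg h, zero_mul]

theorem pf_LOW (hMOM : T_MOM) (hMK1 : T_MK1) : T_LOW := by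
  classical
  intro c M hGB n hn e f he hf
  obtain ⟨-, hM, hG⟩ := hGB
  set B : Set V3 := Bl 0 (M * n) with hB
  set k : ℝ≥0∞ := (c : ℝ≥0∞) / (n : ℝ≥0∞) with hk
  set F : Cycle V3 → ℝ≥0∞ := fun w =>
    if ∀ x ∈ w, x ∈ B then (w.toMultiset.map f).sum else 0 with hF
  have hFl : ∀ l : List V3, F (l : Cycle V3) = if ∀ x ∈ l, x ∈ B then vis f l else 0 := by
    intro l
    simp only [hF, Cycle.mem_coe_iff, Cycle.coe_toMultiset, Multiset.map_coe, Multiset.sum_coe]
    rfl
  have h1 : (∑' l : List V3, if (∀ x ∈ l, x ∈ B) then lw l * (vis e l * vis f l) else 0) =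
      ∑' l : List V3, lw l * (vis e l * F (l : Cycle V3)) := by
    refine tsum_congr fun l => ?_
    rw [hFl]
    by_cases h : ∀ x ∈ l, x ∈ B
    · rw [if_pos h, if_pos h]
    · rw [if_neg h, if_neg h, mul_zero, mul_zero]
  rw [h1, hMOM 3 e F]
  have h20 : ∀ x ∈ Bl 0 (20 * n), x ∈ B := by
    intro x hx
    have hx' : nm (x - 0) ≤ 20 * n := hx
    show nm (x - 0) ≤ M * n
    nlinarith
  have h2 : ∀ a : V3, e a * (k ^ 2 * mass f) ≤
      ∑' t : List V3, if t = [] then 0 else
        e a * (wt Q a (t ++ [a]) * F ((a :: t : List V3) : Cycle V3)) := by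
    intro a
    by_cases hea : e a = 0
    · rw [hea, zero_mul]
      exact zero_le
    have ha := he a hea
    have haB := h20 a ha
    have h3 : k ^ 2 * mass f ≤ ∑' t : List V3, wt (QB B) a (t ++ [a]) * vis f t := by
      rw [hMK1 V3 (QB B) f a a, mass, ← ENNReal.tsum_mul_left]
      refine ENNReal.tsum_le_tsum fun b => ?_
      by_cases hfb : f b = 0
      · rw [hfb, mul_zero]
        exact zero_le
      have hb := hf b hfb
      have e1 := hG n B hn (le_refl _) a ha b hb
      have e2 := hG n B hn (le_refl _) b hb a ha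
      calc k ^ 2 * f b = f b * (k * k) := by ring
        _ ≤ f b * (Hk (QB B) a b * Hk (QB B) b a) :=
            mul_le_mul_right (mul_le_mul' e1 e2) _
    calc e a * (k ^ 2 * mass f)
        ≤ e a * ∑' t : List V3, wt (QB B) a (t ++ [a]) * vis f t :=
          mul_le_mul_right h3 _
      _ = ∑' t : List V3, e a * (wt (QB B) a (t ++ [a]) * vis f t) := by
          rw [ENNReal.tsum_mul_left]
      _ ≤ _ := by
          refine ENNReal.tsum_le_tsum fun t => ?_
          by_cases ht : t = []
          · subst ht
            simp [vis]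
          rw [if_neg ht]
          refine mul_le_mul_right ?_ _
          rw [wt_QB, hFl]
          by_cases hB' : ∀ x ∈ t ++ [a], x ∈ B
          · have hB2 : ∀ x ∈ a :: t, x ∈ B := by
              intro x hx
              rcases List.mem_cons.1 hx with rfl | hx
              · exact haB
              · exact hB' x (List.mem_append_left _ hx)
            rw [if_pos hB', if_pos hB2]
            refine mul_le_mul_right ?_ _
            unfold vis
            rw [List.map_cons, List.sum_cons]
            exact le_add_self
          · rw [if_neg hB', zero_mul]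
            exact zero_le
  calc k ^ 2 * (mass e * mass f) = ∑' a : V3, e a * (k ^ 2 * mass f) := by
        rw [ENNReal.tsum_mul_right]
        unfold mass
        ring
    _ ≤ _ := ENNReal.tsum_le_tsum h2

end Pool.Agent.H11.LP
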