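import Pool.Agent.H62.LP.T1

/-! Sums over loops (module MUS). -/

set_option autoImplicit false

open MeasureTheory ProbabilityTheory Filter Topology
open scoped ENNReal NNReal

namespace Pool.Agent.H11.LP

open Pool.Agent.H62.LP

theorem q_ne_top {d : ℕ} (x y : Vt d) : Q x y ≠ ⊤ := by
  classical
  unfold Q
  by_cases h : Adj x y
  · rw [if_pos h]
    have hd : d ≠ 0 := by
      rintro rfl
      unfold Adj at h
      simp at h
    refine ENNReal.inv_ne_top.2 ?_
    exact_mod_cast (by positivity : (2 * d) ≠ 0)
  · rw [if_neg h]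
    exact ENNReal.zero_ne_top

theorem wt_ne_top {d : ℕ} (l : List (Vt d)) : ∀ x : Vt d, wt Q x l ≠ ⊤ := by
  induction l with
  | nil =>
    intro x
    simp
  | cons y l ih =>
    intro x
    rw [wt_cons]
    exact ENNReal.mul_ne_top (q_ne_top x y) (ih y)

theorem lw_ne_top {d : ℕ} (l : List (Vt d)) : lw l ≠ ⊤ := by
  match l with
  | [] => simp [lw]
  | [_] => simp [lw]
  | x :: y :: l =>
    unfold lw
    refine ENNReal.div_ne_top (wt_ne_top _ x) ?_
    exact_mod_cast (by positivity : (l.length + 2) ≠ 0)

theorem pf_MUS : T_MUS := by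
  classical
  intro d
  refine ⟨fun F => ?_, fun c => ?_⟩
  · have h1 : ∀ c : Cycle (Vt d), mu c * F c =
        ∑' l : List (Vt d), if c = (l : Cycle (Vt d)) then lw l * F (l : Cycle (Vt d)) else 0 := by
      intro c
      unfold mu
      rw [← ENNReal.tsum_mul_right]
      refine tsum_congr fun l => ?_
      by_cases h : (l : Cycle (Vt d)) = c
      · rw [if_pos h, if_pos h.symm, h]
      · rw [if_neg h, if_neg (fun hh => h hh.symm), zero_mul]
    rw [tsum_congr h1, ENNReal.tsum_comm]
    refine tsum_congr fun l => ?_
    rw [tsum_ite_eq]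
  · induction c using Quotient.inductionOn with
    | h l₀ =>
      unfold mu
      rw [tsum_eq_sum (s := l₀.cyclicPermutations.toFinset)]
      · refine ENNReal.sum_ne_top.2 fun l _ => ?_
        by_cases h : (l : Cycle (Vt d)) = (Quotient.mk _ l₀ : Cycle (Vt d))
        · rw [if_pos h]
          exact lw_ne_top l
        · rw [if_neg h]
          exact ENNReal.zero_ne_top
      · intro l hl
        refine if_neg fun h => hl ?_
        rw [List.mem_toFinset, List.mem_cyclicPermutations_iff]
        exact Cycle.coe_eq_coe.1 h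

end Pool.Agent.H11.LP
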