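import Pool.Agent.H68.LP.Targets

/-!
# MP_5607ba_lc: a two sided Cauchy sequence in a Polish group converges (row RKV)
-/

set_option autoImplicit false

open Set Filter Topology
open scoped Pointwise

namespace Pool.Agent.H11.LP

open Pool.Agent.H68.LP

theorem pf_RKV : Pool.Agent.H68.LP.T_RKV := by
  intro G _ _ _ _ s hL hR
  let _ := TopologicalSpace.upgradeIsCompletelyMetrizable G
  let D : ℕ → Set G := fun k =>
    interior {g : G | ∃ (N : ℕ) (y : G), ∀ n ≥ N, dist (g * s n) y < 1 / ((k : ℝ) + 1)}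
  have hD : ∀ k, Dense (D k) := by
    intro k
    rw [dense_iff_inter_open]
    rintro O hO ⟨g₀, hg₀⟩
    have hk : (0 : ℝ) < 1 / ((k : ℝ) + 1) := by positivity
    -- the neighbourhood `V`
    have hV : {v : G | g₀ * v ∈ O} ∈ 𝓝 (1 : G) := by
      have hc : Continuous fun v : G => g₀ * v := continuous_const.mul continuous_id
      refine hc.continuousAt (x := 1) ?_
      show O ∈ 𝓝 (g₀ * 1)
      rw [mul_one]
      exact hO.mem_nhds hg₀
    obtain ⟨M, hM⟩ := hR _ (inv_mem_nhds_one G hV)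
    have hM' : ∀ n ≥ M, g₀ * (s M * (s n)⁻¹) ∈ O := by
      intro n hn
      have h1 := hM n hn
      rw [Set.mem_inv] at h1
      have e : (s n * (s M)⁻¹)⁻¹ = s M * (s n)⁻¹ := by group
      rw [e] at h1
      exact h1
    -- continuity at `(y, 1)`
    set y : G := g₀ * s M with hy
    have hc : ContinuousAt (fun p : G × G => dist (p.1 * p.2) y) (y, 1) := by
      apply Continuous.continuousAt
      fun_prop
    have hc1 : {p : G × G | dist (p.1 * p.2) y < 1 / ((k : ℝ) + 1)} ∈ 𝓝 (y, (1 : G)) := by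
      have h1 : Iio (1 / ((k : ℝ) + 1)) ∈ 𝓝 ((fun p : G × G => dist (p.1 * p.2) y) (y, 1)) := by
        apply Iio_mem_nhds
        show dist (y * 1) y < _
        rw [mul_one, dist_self]
        exact hk
      exact hc h1
    rw [nhds_prod_eq, mem_prod_iff] at hc1
    obtain ⟨Y, hY, U, hU, hYU⟩ := hc1
    -- the neighbourhood `U₁`
    have hU₁ : ∃ U₁ ∈ 𝓝 (1 : G), ∀ a ∈ U₁, ∀ b ∈ U₁, a⁻¹ * b ∈ U := by
      have hc2 : Continuous fun p : G × G => p.1⁻¹ * p.2 := by fun_prop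
      have h1 : {p : G × G | p.1⁻¹ * p.2 ∈ U} ∈ 𝓝 ((1 : G), (1 : G)) := by
        refine hc2.continuousAt (x := ((1 : G), (1 : G))) ?_
        show U ∈ 𝓝 ((1 : G)⁻¹ * 1)
        rw [inv_one, mul_one]
        exact hU
      rw [nhds_prod_eq, mem_prod_iff] at h1
      obtain ⟨A, hA, B, hB, hAB⟩ := h1
      refine ⟨A ∩ B, inter_mem hA hB, fun a ha b hb => ?_⟩
      exact hAB (Set.mk_mem_prod ha.1 hb.2)
    obtain ⟨U₁, hU₁n, hU₁⟩ := hU₁
    obtain ⟨N₀, hN₀⟩ := hL U₁ hU₁n
    set N := max M N₀ with hN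
    have h2 : ∀ n ≥ N, (s N)⁻¹ * s n ∈ U := by
      intro n hn
      have h3 := hU₁ _ (hN₀ N (le_max_right _ _)) _ (hN₀ n ((le_max_right _ _).trans hn))
      have e : ((s N₀)⁻¹ * s N)⁻¹ * ((s N₀)⁻¹ * s n) = (s N)⁻¹ * s n := by group
      rw [e] at h3
      exact h3
    refine ⟨y * (s N)⁻¹, ?_, ?_⟩
    · have h3 := hM' N (le_max_left _ _)
      rw [hy, mul_assoc]
      exact h3
    · rw [mem_interior_iff_mem_nhds]
      have h3 : {g : G | g * s N ∈ Y} ∈ 𝓝 (y * (s N)⁻¹) := by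
        have hc3 : Continuous fun g : G => g * s N := continuous_id.mul continuous_const
        refine hc3.continuousAt (x := y * (s N)⁻¹) ?_
        show Y ∈ 𝓝 (y * (s N)⁻¹ * s N)
        rw [inv_mul_cancel_right]
        exact hY
      refine mem_of_superset h3 fun g₁ hg₁ => ⟨N, y, fun n hn => ?_⟩
      have h4 : (g₁ * s N, (s N)⁻¹ * s n) ∈ Y ×ˢ U := ⟨hg₁, h2 n hn⟩
      have h5 := hYU h4
      have e : g₁ * s N * ((s N)⁻¹ * s n) = g₁ * s n := by group
      have h6 : dist (g₁ * s N * ((s N)⁻¹ * s n)) y < 1 / ((k : ℝ) + 1) := h5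
      rw [e] at h6
      exact h6
  -- Baire
  have hB := dense_iInter_of_isOpen_nat (f := D) (fun k => isOpen_interior) hD
  obtain ⟨g, hg⟩ := hB.nonempty
  rw [mem_iInter] at hg
  have hC : CauchySeq fun n => g * s n := by
    rw [Metric.cauchySeq_iff']
    intro ε hε
    obtain ⟨k, hk⟩ := exists_nat_one_div_lt (half_pos hε)
    obtain ⟨N, y, hN⟩ := interior_subset (hg k)
    refine ⟨N, fun n hn => ?_⟩
    have h1 := hN n hn
    have h2 := hN N le_rfl
    have h3 := dist_triangle_right (g * s n) (g * s N) y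
    linarith
  obtain ⟨z, hz⟩ := cauchySeq_tendsto_of_complete hC
  refine ⟨g⁻¹ * z, ?_⟩
  have h1 : Tendsto (fun n => g⁻¹ * (g * s n)) atTop (𝓝 (g⁻¹ * z)) := tendsto_const_nhds.mul hz
  refine h1.congr fun n => ?_
  rw [inv_mul_cancel_left]

end Pool.Agent.H11.LP
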