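import Pool.Agent.H62.LP.T1
import Pool.Agent.H62.LP.T2

/-! Translation of loops (module TRL). -/

set_option autoImplicit false

open MeasureTheory ProbabilityTheory Filter Topology
open scoped ENNReal NNReal

namespace Pool.Agent.H11.LP

open Pool.Agent.H62.LP

theorem q_add {d : ℕ} (z x y : Vt d) : Q (x + z) (y + z) = Q x y := by
  unfold Q Adj
  simp

theorem wt_map_add {d : ℕ} (z : Vt d) (l : List (Vt d)) : ∀ x : Vt d,
    wt Q (x + z) (l.map (· + z)) = wt Q x l := by
  induction l with
  | nil => intro x; simp
  | cons y l ih =>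
    intro x
    rw [List.map_cons, wt_cons, wt_cons, ih y, q_add]

theorem lw_map_add {d : ℕ} (z : Vt d) (l : List (Vt d)) : lw (l.map (· + z)) = lw l := by
  match l with
  | [] => rfl
  | [_] => rfl
  | x :: y :: l =>
    have h := wt_map_add z (y :: l ++ [x]) x
    simp only [List.map_append, List.map_cons, List.map_nil] at h
    simp only [List.map_cons, lw, List.length_map]
    rw [h]

theorem cycle_map_inv {α : Type} (f g : α → α) (h : ∀ x, g (f x) = x) (c : Cycle α) :
    (c.map f).map g = c := by
  induction c using Quotient.inductionOn with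
  | h l =>
    show (((l.map f).map g : List α) : Cycle α) = (l : Cycle α)
    rw [List.map_map]
    congr 1
    conv_rhs => rw [← List.map_id l]
    exact List.map_congr_left fun x _ => h x

/-- translation of loops as a bijection -/
def cycEquiv {α : Type} (e : α ≃ α) : Cycle α ≃ Cycle α where
  toFun c := c.map e
  invFun c := c.map e.symm
  left_inv c := cycle_map_inv _ _ (fun x => e.symm_apply_apply x) c
  right_inv c := cycle_map_inv _ _ (fun x => e.apply_symm_apply x) c

/-- translation of lists as a bijection -/
def lisEquiv {α : Type} (e : α ≃ α) : List α ≃ List α where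
  toFun l := l.map e
  invFun l := l.map e.symm
  left_inv l := by simp [List.map_map]
  right_inv l := by simp [List.map_map]

theorem mu_map_add {d : ℕ} (z : Vt d) (c : Cycle (Vt d)) : mu (c.map (· + z)) = mu c := by
  classical
  unfold mu
  rw [← Equiv.tsum_eq (lisEquiv (Equiv.addRight z))]
  refine tsum_congr fun l => ?_
  have h1 : (lisEquiv (Equiv.addRight z) l) = l.map (· + z) := rfl
  rw [h1, lw_map_add]
  have h2 : ((l.map (· + z) : List (Vt d)) : Cycle (Vt d)) = (l : Cycle (Vt d)).map (· + z) := rfl
  rw [h2]
  have h3 : (l : Cycle (Vt d)).map (· + z) = c.map (· + z) ↔ (l : Cycle (Vt d)) = c :=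
    (cycEquiv (Equiv.addRight z)).apply_eq_iff_eq (x := (l : Cycle (Vt d))) (y := c)
  by_cases h : (l : Cycle (Vt d)) = c
  · rw [if_pos h, if_pos (h3.2 h)]
  · rw [if_neg h, if_neg (fun hh => h (h3.1 hh))]

theorem countable_cycle (α : Type) [Countable α] : Countable (Cycle α) := by
  have : Countable (Quotient (List.IsRotated.setoid α)) := inferInstance
  exact this

theorem pf_TRL (hBIJ : T_BIJ) : T_TRL := by
  intro d z
  refine ⟨fun c => mu_map_add z c, fun α => ?_⟩
  have : Countable (Cycle (Vt d)) := countable_cycle (Vt d)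
  exact hBIJ (Cycle (Vt d)) (inten d α) (cycEquiv (Equiv.addRight z)) (fun c => by
    unfold inten
    have h : mu ((cycEquiv (Equiv.addRight z)) c) = mu c := mu_map_add z c
    rw [h])

end Pool.Agent.H11.LP
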