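import Pool.Agent.H62.LP.T1
import Pool.Agent.H62.LP.T2

/-! Upper bound for moments with two marks far away (module UP2). -/

set_option autoImplicit false

open MeasureTheory ProbabilityTheory Filter Topology
open scoped ENNReal NNReal

namespace Pool.Agent.H11.LP

open Pool.Agent.H62.LP

theorem nm_neg {d : ℕ} (x : Vt d) : nm (-x) = nm x := by
  unfold nm
  simp

theorem nm_sub_comm {d : ℕ} (x y : Vt d) : nm (x - y) = nm (y - x) := by
  rw [← nm_neg, neg_sub]

theorem Hk_le_Gk {V : Type} (q : V → V → ℝ≥0∞) (x y : V) : Hk q x y ≤ Gk q x y := by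
  unfold Gk
  exact le_add_self

theorem Hk_le_far {C₀ : ℝ≥0} (hC : HGU C₀) {n : ℕ} {x y : V3} (h : n ≤ nm (x - y)) :
    Hk Q x y ≤ (C₀ : ℝ≥0∞) / (n : ℝ≥0∞) := by
  refine (Hk_le_Gk Q x y).trans ((hC.2 x y).trans ?_)
  refine ENNReal.div_le_div_left ?_ _
  exact_mod_cast (by omega : n ≤ 1 + nm (x - y))

theorem vis2_cons_far {V : Type} (g : V → V → ℝ≥0∞) (a : V) (t : List V)
    (h1 : ∀ b, g a b = 0) (h2 : ∀ b, g b a = 0) : vis2 g (a :: t) = vis2 g t := by
  unfold vis2
  rw [List.map_cons, List.sum_cons]
  have e1 : ((a :: t).map (g a)).sum = 0 := by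
    rw [List.sum_eq_zero]
    intro x hx
    obtain ⟨b, -, rfl⟩ := List.mem_map.1 hx
    exact h1 b
  rw [e1, zero_add]
  congr 1
  refine List.map_congr_left fun b _ => ?_
  rw [List.map_cons, List.sum_cons, h2 b, zero_add]

theorem pf_UP2 (hMOM : T_MOM) (hMK2 : T_MK2) : T_UP2 := by
  classical
  intro C₀ hC n hn U S hUS e g he hg hsym
  set k : ℝ≥0∞ := (C₀ : ℝ≥0∞) / (n : ℝ≥0∞) with hk
  set F : Cycle V3 → ℝ≥0∞ := fun w =>
    (w.toMultiset.map (fun b => (w.toMultiset.map (g b)).sum)).sum with hF
  have hFl : ∀ l : List V3, F (l : Cycle V3) = vis2 g l := by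
    intro l
    simp only [hF, Cycle.coe_toMultiset, Multiset.map_coe, Multiset.sum_coe]
    rfl
  have h1 : (∑' l : List V3, lw l * (vis e l * vis2 g l)) =
      ∑' l : List V3, lw l * (vis e l * F (l : Cycle V3)) := by
    refine tsum_congr fun l => ?_
    rw [hFl]
  rw [h1, hMOM 3 e F]
  set E : ℝ≥0∞ := ∑' b, ∑' b', g b b' * Gr b b' with hE
  have h2 : ∀ a : V3, (∑' t : List V3, if t = [] then 0 else
        e a * (wt Q a (t ++ [a]) * F ((a :: t : List V3) : Cycle V3))) ≤
      e a * (2 * k ^ 2 * E) := by
    intro a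
    by_cases hea : e a = 0
    · simp [hea]
    have haU := he a hea
    have haS : a ∉ S := by
      intro haS
      have := hUS a haU a haS
      have h0 : nm (a - a) = 0 := by
        rw [sub_self]
        unfold nm
        simp
      omega
    have hg1 : ∀ b, g a b = 0 := by
      intro b
      by_contra hne
      exact haS (hg a b hne).1
    have hg2 : ∀ b, g b a = 0 := by
      intro b
      by_contra hne
      exact haS (hg b a hne).2
    calc (∑' t : List V3, if t = [] then 0 else
          e a * (wt Q a (t ++ [a]) * F ((a :: t : List V3) : Cycle V3)))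
        ≤ ∑' t : List V3, e a * (wt Q a (t ++ [a]) * vis2 g t) := by
          refine ENNReal.tsum_le_tsum fun t => ?_
          by_cases ht : t = []
          · rw [if_pos ht]
            exact zero_le
          rw [if_neg ht, hFl, vis2_cons_far g a t hg1 hg2]
      _ = e a * ∑' t : List V3, wt Q a (t ++ [a]) * vis2 g t := by
          rw [ENNReal.tsum_mul_left]
      _ ≤ e a * (2 * k ^ 2 * E) := by
          refine mul_le_mul_right ?_ _
          refine (hMK2 V3 Q g a a).trans ?_
          rw [hE, ← ENNReal.tsum_mul_left]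
          refine ENNReal.tsum_le_tsum fun b => ?_
          rw [← ENNReal.tsum_mul_left]
          refine ENNReal.tsum_le_tsum fun b' => ?_
          rw [← hsym b b']
          by_cases hbb : g b b' = 0
          · rw [hbb]
            simp
          obtain ⟨hb, hb'⟩ := hg b b' hbb
          have e1 : Hk Q a b ≤ k := Hk_le_far hC (hUS a haU b hb)
          have e2 : Hk Q b' a ≤ k := Hk_le_far hC (by
            rw [nm_sub_comm]; exact hUS a haU b' hb')
          calc (g b b' + g b b') * (Hk Q a b * Gk Q b b' * Hk Q b' a)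
              ≤ (g b b' + g b b') * (k * Gk Q b b' * k) :=
                mul_le_mul_right (mul_le_mul' (mul_le_mul_left e1 _) e2) _
            _ = 2 * k ^ 2 * (g b b' * Gr b b') := by
                show _ = 2 * k ^ 2 * (g b b' * Gk Q b b')
                ring
  refine (ENNReal.tsum_le_tsum h2).trans ?_
  rw [ENNReal.tsum_mul_right]
  unfold mass
  apply le_of_eq
  ring

end Pool.Agent.H11.LP
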